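import Pool.Agent.N585.PT.Main
import Pool.Agent.NPC.Dec
import Pool.Agent.H622R2.Base
import Pool.Agent.N395.PT10
import Pool.Agent.N80.PTok
import Pool.Agent.N271.PTSnake
import Pool.Agent.N170.PTtree
import Pool.Agent.N865.PTIso
import Pool.Agent.N558.PTpath
import Pool.Agent.N189.PT.Br
import Pool.Agent.N853.PT7
import Pool.Agent.N749.PTra
import Pool.Agent.N91.PT9

/-!
# Path-like trees are recognised in polynomial time

`PathLike` (see `Pool.Agent.N585.PT.Defs`) is the definition of the problem file: a graph is
path-like if it is isomorphic to a graph obtained from a crossing-free embedding of the path with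
`n` vertices in the grid by a set of elementary transformations of this embedding.

The proof. Elementary transformations of one embedding do not interfere, and each set of
non-interfering transformations is realised by a snake (theorem `pathLike_iff`): the path-like
trees are the trees whose vertices can be partitioned into a sequence of paths such that for
consecutive paths `Q`, `Q'` there is a `t` for which the vertex of `Q` with `t` vertices after it is
adjacent to the vertex of `Q'` with `t` vertices before it. For a branch of a tree one computes all
positions which the root of the branch can have in the first path of such a partition of the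
branch; this is a dynamic programming over the edges of the tree.
-/

set_option autoImplicit false

namespace Pool.Agent.Results.MP_eef266_lc.PathLikeInP

open Pool.Agent.NPC Pool.Agent.H622R2 Pool.Agent.N585.PT Pool.Agent.NPC.N585FP

/-- The graph with the vertices `0, ..., n - 1` and the edges given by the list `E` (loops and pairs
with an entry which is not a vertex are ignored). -/
def edgeGraph (n : ℕ) (E : List (ℕ × ℕ)) : SimpleGraph (Fin n) where
  Adj i j := i ≠ j ∧ ((i.1, j.1) ∈ E ∨ (j.1, i.1) ∈ E)
  symm := ⟨fun _ _ h => ⟨h.1.symm, h.2.symm⟩⟩
  loopless := ⟨fun _ h => h.1 rfl⟩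

/-- The adjacency matrix of `edgeGraph`. -/
def edgeMat (x : List Unit × List (ℕ × ℕ)) : List (List Bool) :=
  mat (List.range x.1.length) fun i j => decide ((i, j) ∈ x.2)

theorem pathLike_congr {V W : Type} {G : SimpleGraph V} {H : SimpleGraph W} (f : G ≃g H) :
    PathLike G ↔ PathLike H := by
  constructor
  · rintro ⟨n, p, A, t, hn, hp, hA, ⟨g⟩⟩
    exact ⟨n, p, A, t, hn, hp, hA, ⟨f.symm.trans g⟩⟩
  · rintro ⟨n, p, A, t, hn, hp, hA, ⟨g⟩⟩
    exact ⟨n, p, A, t, hn, hp, hA, ⟨f.trans g⟩⟩

theorem edgeMat_length (x : List Unit × List (ℕ × ℕ)) : (edgeMat x).length = x.1.length := by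
  simp [edgeMat, mat]

/-- The two descriptions give isomorphic graphs. -/
def edgeIso (x : List Unit × List (ℕ × ℕ)) :
    edgeGraph x.1.length x.2 ≃g matGraph (edgeMat x) where
  toEquiv := finCongr (edgeMat_length x).symm
  map_rel_iff' := by
    intro i j
    have he : ∀ i j : Fin x.1.length, entry (edgeMat x) i j = decide ((i.1, j.1) ∈ x.2) := by
      intro i j
      unfold edgeMat
      rw [entry_mat _ _ _ _ (by simp) (by simp)]
      simp
    simp only [matGraph, edgeGraph, finCongr_apply, Fin.val_cast, he, decide_eq_true_eq, ne_eq,
      Fin.ext_iff]

/-- The correctness of the algorithm. -/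
theorem alg_correct (M : List (List Bool)) : PathLike (matGraph M) ↔ algB M = true :=
  alg_iff Pool.Agent.N80.PT.stmOk Pool.Agent.N271.PTSnake.stmSnake Pool.Agent.N170.PTtree.stmTree
    (Pool.Agent.N865.PTIso.stmIso Pool.Agent.N170.PTtree.stmTree)
    (Pool.Agent.N853.PT7.stmTop Pool.Agent.N558.PT.stmPath
      (Pool.Agent.N189.PT.stmBr Pool.Agent.N558.PT.stmPath))
    Pool.Agent.N749.PTra.stmRa (Pool.Agent.N91.PT9.stmAlg Pool.Agent.N749.PTra.stmRa) M

/-- One can decide in polynomial time whether a finite graph is isomorphic to a path-like tree, for
graphs given by adjacency matrices and for graphs given by the number of vertices (in unary) and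
the list of edges. -/
theorem result :
    InPP (fun M : List (List Bool) => PathLike (matGraph M)) ∧
    InPP (fun x : List Unit × List (ℕ × ℕ) => PathLike (edgeGraph x.1.length x.2)) := by
  constructor
  · exact inPP_of Pool.Agent.NPC.N395PT.stmPoly alg_correct
  · have hq : Poly edgeMat := by
      unfold edgeMat mat
      fun_prop
    exact inPP_of (d := fun x => algB (edgeMat x)) (Poly.comp Pool.Agent.NPC.N395PT.stmPoly hq)
      fun x => by rw [pathLike_congr (edgeIso x), alg_correct]

end Pool.Agent.Results.MP_eef266_lc.PathLikeInP
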